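import Pool.Agent.Q99.KN.Stm3

/-!
# Project KN (helper99), job BQ: the integral of a step in `ζ`
-/

set_option autoImplicit false

namespace Q299.KN.Bq

open Finset Filter Topology MeasureTheory
open Pool.Agent.Q99.KN

/-- Differentiation under the integral sign for a continuous family of analytic functions. -/
theorem differentiableOn_integral {U : Set ℂ} (hU : IsOpen U) {a b : ℝ} (hab : a ≤ b)
    {F : ℂ → ℝ → ℂ} (hd : ∀ t ∈ Set.Icc a b, DifferentiableOn ℂ (fun ξ => F ξ t) U)
    (hc : ContinuousOn (fun p : ℂ × ℝ => F p.1 p.2) (U ×ˢ Set.Icc a b)) :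
    DifferentiableOn ℂ (fun ξ => ∫ t in a..b, F ξ t) U := by
  intro x0 hx0
  obtain ⟨R, hR, hRU⟩ := Metric.isOpen_iff.1 hU x0 hx0
  set r : ℝ := R / 4 with hr
  have hr0 : 0 < r := by positivity
  have hcb : Metric.closedBall x0 (2 * r) ⊆ U := fun z hz => hRU (by
    rw [Metric.mem_closedBall] at hz
    rw [Metric.mem_ball]
    linarith)
  have hK : IsCompact (Metric.closedBall x0 (2 * r) ×ˢ Set.Icc a b) :=
    (isCompact_closedBall _ _).prod isCompact_Icc
  obtain ⟨M, hM⟩ := hK.exists_bound_of_continuousOn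
    (hc.mono (Set.prod_mono hcb (subset_refl _)))
  have hM0 : 0 ≤ M := by
    have := hM (x0, a) ⟨Metric.mem_closedBall_self (by positivity), ⟨le_rfl, hab⟩⟩
    exact (norm_nonneg _).trans this
  have hct : ∀ ξ ∈ U, ContinuousOn (fun t => F ξ t) (Set.Icc a b) := by
    intro ξ hξ
    exact hc.comp (continuousOn_const.prodMk continuousOn_id) fun t ht => ⟨hξ, ht⟩
  have hmeas : ∀ ξ ∈ U, AEStronglyMeasurable (fun t => F ξ t) (volume.restrict (Set.uIoc a b)) := by
    intro ξ hξ
    rw [Set.uIoc_of_le hab]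
    exact ((hct ξ hξ).mono Set.Ioc_subset_Icc_self).aestronglyMeasurable measurableSet_Ioc
  have hballU : ∀ ξ ∈ Metric.ball x0 r, ξ ∈ U := fun ξ hξ => hcb (by
    rw [Metric.mem_ball] at hξ
    rw [Metric.mem_closedBall]
    linarith)
  have hder : ∀ t ∈ Set.Icc a b, ∀ ξ ∈ Metric.ball x0 r,
      HasDerivAt (fun ξ => F ξ t) (deriv (fun ξ => F ξ t) ξ) ξ := fun t ht ξ hξ =>
    ((hd t ht).differentiableAt (hU.mem_nhds (hballU ξ hξ))).hasDerivAt
  have hkey := intervalIntegral.hasDerivAt_integral_of_dominated_loc_of_deriv_le (𝕜 := ℂ)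
    (μ := volume) (a := a) (b := b) (F := F) (F' := fun ξ t => deriv (fun ξ => F ξ t) ξ)
    (x₀ := x0) (s := Metric.ball x0 r) (bound := fun _ => M / r) (Metric.ball_mem_nhds x0 hr0)
    ?_ ?_ ?_ ?_ ?_ ?_
  · exact hkey.2.differentiableAt.differentiableWithinAt
  · filter_upwards [Metric.ball_mem_nhds x0 hr0] with ξ hξ
    exact hmeas ξ (hballU ξ hξ)
  · exact ((hct x0 hx0).mono (by rw [Set.uIcc_of_le hab])).intervalIntegrable
  · -- measurability of the derivative
    rw [Set.uIoc_of_le hab]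
    have hseq : ∀ n : ℕ, x0 + (r / (n + 2) : ℝ) ∈ Metric.ball x0 r := by
      intro n
      rw [Metric.mem_ball, dist_eq_norm, add_sub_cancel_left, Complex.norm_real,
        Real.norm_eq_abs, abs_of_pos (by positivity)]
      rw [div_lt_iff₀ (by positivity)]
      have : (0 : ℝ) ≤ n := by positivity
      nlinarith
    refine aestronglyMeasurable_of_tendsto_ae atTop
      (f := fun (n : ℕ) t => (((r / (n + 2) : ℝ) : ℂ))⁻¹ *
        (F (x0 + (r / (n + 2) : ℝ)) t - F x0 t)) ?_ ?_
    · intro n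
      have h1 := hmeas _ (hballU _ (hseq n))
      have h2 := hmeas x0 hx0
      rw [Set.uIoc_of_le hab] at h1 h2
      exact (h1.sub h2).const_mul _
    · refine (ae_restrict_iff' measurableSet_Ioc).2 (Eventually.of_forall fun t ht => ?_)
      have h1 := hder t (Set.Ioc_subset_Icc_self ht) x0 (Metric.mem_ball_self hr0)
      have h2 := h1.tendsto_slope_zero
      have h3 : Tendsto (fun n : ℕ => ((r / (n + 2) : ℝ) : ℂ)) atTop (𝓝[≠] 0) := by
        refine tendsto_nhdsWithin_iff.2 ⟨?_, Eventually.of_forall fun n => ?_⟩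
        · have h4 : Tendsto (fun n : ℕ => r / ((n : ℝ) + 2)) atTop (𝓝 0) :=
            Tendsto.div_atTop tendsto_const_nhds
              (tendsto_atTop_add_const_right _ _ tendsto_natCast_atTop_atTop)
          have h5 := (Complex.continuous_ofReal.tendsto 0).comp h4
          rw [Complex.ofReal_zero] at h5
          exact h5
        · have : (0 : ℝ) < r / (n + 2) := by positivity
          simp only [Set.mem_compl_iff, Set.mem_singleton_iff]
          exact_mod_cast this.ne'
      refine (h2.comp h3).congr fun n => ?_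
      simp only [Function.comp, smul_eq_mul]
  · refine Eventually.of_forall fun t ht ξ hξ => ?_
    rw [Set.uIoc_of_le hab] at ht
    have ht' := Set.Ioc_subset_Icc_self ht
    refine Complex.norm_deriv_le_of_forall_mem_sphere_norm_le hr0 ?_ ?_
    · refine DifferentiableOn.diffContOnCl ?_
      rw [closure_ball ξ hr0.ne']
      refine (hd t ht').mono fun z hz => hcb ?_
      rw [Metric.mem_closedBall] at hz ⊢
      rw [Metric.mem_ball] at hξ
      linarith [dist_triangle z ξ x0]
    · intro z hz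
      refine hM (z, t) ⟨?_, ht'⟩
      rw [mem_sphere_iff_norm] at hz
      rw [Metric.mem_ball] at hξ
      rw [Metric.mem_closedBall]
      have h1 := dist_triangle z ξ x0
      rw [dist_eq_norm z ξ, hz] at h1
      linarith
  · exact intervalIntegrable_const
  · refine Eventually.of_forall fun t ht ξ hξ => ?_
    rw [Set.uIoc_of_le hab] at ht
    exact hder t (Set.Ioc_subset_Icc_self ht) ξ hξ

/-! ### elementary bounds -/

theorem norm_sin_le (z : ℂ) : ‖Complex.sin z‖ ≤ Real.exp |z.im| := by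
  have h1 : Complex.sin z = (Complex.exp (-z * Complex.I) - Complex.exp (z * Complex.I)) *
      Complex.I / 2 := rfl
  rw [h1, norm_div, norm_mul, Complex.norm_I, mul_one, show ‖(2 : ℂ)‖ = 2 by norm_num]
  have h2 := norm_sub_le (Complex.exp (-z * Complex.I)) (Complex.exp (z * Complex.I))
  rw [Complex.norm_exp, Complex.norm_exp] at h2
  have e1 : (-z * Complex.I).re = z.im := by simp
  have e2 : (z * Complex.I).re = -z.im := by simp
  rw [e1, e2] at h2
  have h3 : Real.exp z.im ≤ Real.exp |z.im| := Real.exp_le_exp.2 (le_abs_self _)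
  have h4 : Real.exp (-z.im) ≤ Real.exp |z.im| := Real.exp_le_exp.2 (neg_le_abs _)
  linarith

theorem sinh_le_norm_sin (z : ℂ) : Real.sinh z.im ≤ ‖Complex.sin z‖ := by
  have h1 : Complex.sin z = (Complex.exp (-z * Complex.I) - Complex.exp (z * Complex.I)) *
      Complex.I / 2 := rfl
  rw [h1, norm_div, norm_mul, Complex.norm_I, mul_one, show ‖(2 : ℂ)‖ = 2 by norm_num]
  have h2 := norm_sub_norm_le (Complex.exp (-z * Complex.I)) (Complex.exp (z * Complex.I))
  rw [Complex.norm_exp, Complex.norm_exp] at h2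
  have e1 : (-z * Complex.I).re = z.im := by simp
  have e2 : (z * Complex.I).re = -z.im := by simp
  rw [e1, e2] at h2
  rw [Real.sinh_eq]
  linarith

/-- The kernel on the line `Im = y`. -/
theorem norm_kz_le {N : ℕ} (hN : 1 ≤ N) {x y : ℝ} (hy : 0 < y) :
    ‖kz N (N * (x + y * Complex.I))‖ ≤ 1 / y ^ 2 := by
  have hN1 : (1 : ℝ) ≤ N := by exact_mod_cast hN
  unfold kz
  set z : ℂ := Real.pi * (N * (x + y * Complex.I) - N + 1) / 2 with hz
  have him : z.im = Real.pi * (N * y) / 2 := by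
    have : z = ((Real.pi * (N * x - N + 1) / 2 : ℝ) : ℂ) +
        ((Real.pi * (N * y) / 2 : ℝ) : ℂ) * Complex.I := by
      rw [hz]; push_cast; ring
    rw [this, Complex.add_im, Complex.ofReal_im, Complex.im_ofReal_mul, Complex.I_im]
    ring
  have hp : 0 < z.im := by rw [him]; positivity
  have h1 := sinh_le_norm_sin z
  have h2 : z.im ≤ Real.sinh z.im := Real.self_le_sinh_iff.2 hp.le
  have h3 : Real.pi / 2 * y ≤ ‖Complex.sin z‖ := by
    refine le_trans ?_ (h2.trans h1)
    rw [him]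
    nlinarith [mul_le_mul_of_nonneg_left hN1 (show 0 ≤ Real.pi * y by positivity)]
  rw [norm_div, norm_pow, norm_pow, norm_div, Complex.norm_real, Real.norm_eq_abs,
    abs_of_pos Real.pi_pos, show ‖(2 : ℂ)‖ = 2 by norm_num]
  have h4 : (Real.pi / 2 * y) ^ 2 ≤ ‖Complex.sin z‖ ^ 2 := pow_le_pow_left₀ (by positivity) h3 2
  rw [div_le_div_iff₀ (by nlinarith [show 0 < (Real.pi / 2 * y) ^ 2 by positivity]) (by positivity)]
  nlinarith

/-- The exponential factor on the line `Im = y`. -/
theorem norm_ez {N : ℕ} (hN : 1 ≤ N) (w : ℤ) (x y : ℝ) :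
    ‖ez N w (N * (x + y * Complex.I))‖ = Real.exp (-(Real.pi * w * N * x * y / 2)) := by
  have hN1 : (N : ℂ) ≠ 0 := by
    have : N ≠ 0 := by omega
    exact_mod_cast this
  unfold ez
  rw [Complex.norm_exp]
  congr 1
  have h1 : Complex.I * Real.pi * w * (N * (x + y * Complex.I)) ^ 2 / (4 * N) =
      ((-(Real.pi * w * N * x * y / 2) : ℝ) : ℂ) +
        ((Real.pi * w * N * (x ^ 2 - y ^ 2) / 4 : ℝ) : ℂ) * Complex.I := by
    have hI : Complex.I ^ 2 = -1 := Complex.I_sq
    push_cast
    field_simp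
    linear_combination (4 * (w : ℂ) * x * y + 2 * w * y ^ 2 * Complex.I) * hI
  rw [h1, Complex.add_re, Complex.ofReal_re, Complex.re_ofReal_mul, Complex.I_re]
  ring

/-- `th` is between `ρ / 4 - 2 / N` and `ρ / 4`. -/
theorem th_bounds {ρ : ℝ} (hρ : 0 < ρ) (hρ1 : ρ ≤ 1 / 16) {N : ℕ} (hN : 16 / ρ ≤ N) :
    1 ≤ N ∧ ρ / 8 ≤ th ρ N ∧ th ρ N ≤ ρ / 4 ∧ 2 * jN ρ N ≤ N := by
  have hN0 : (0 : ℝ) < N := lt_of_lt_of_le (by positivity) hN
  have hN1 : 1 ≤ N := by
    have : (0 : ℝ) < N := hN0
    exact_mod_cast this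
  have hNρ : 16 ≤ ρ * N := by
    rw [div_le_iff₀ hρ] at hN; linarith
  have hj1 : (1 - ρ / 4) * N / 2 ≤ jN ρ N := Nat.le_ceil _
  have hj2 : (jN ρ N : ℝ) < (1 - ρ / 4) * N / 2 + 1 := Nat.ceil_lt_add_one (by
    have : 0 ≤ 1 - ρ / 4 := by linarith
    positivity)
  refine ⟨hN1, ?_, ?_, ?_⟩
  · unfold th
    rw [le_sub_iff_add_le, ← le_sub_iff_add_le', div_le_iff₀ hN0]
    nlinarith
  · unfold th
    rw [sub_le_iff_le_add, ← sub_le_iff_le_add', le_div_iff₀ hN0]
    nlinarith
  · have : (2 * jN ρ N : ℝ) ≤ N := by nlinarith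
    exact_mod_cast this

theorem line_mem {ρ : ℝ} (hρ : 0 < ρ) {x y t : ℝ} (ht : t ≤ ρ / 4) (hy : 0 ≤ y) (hy1 : y ≤ ρ / 2)
    (hx : x ∈ Set.Icc (-t) t) : (x + y * Complex.I : ℂ) ∈ Metric.ball (0 : ℂ) ρ := by
  rw [mem_ball_zero_iff]
  have h1 := norm_add_le (x : ℂ) (y * Complex.I)
  rw [norm_mul, Complex.norm_I, mul_one, Complex.norm_real, Complex.norm_real, Real.norm_eq_abs,
    Real.norm_eq_abs, abs_of_nonneg hy] at h1
  have h2 : |x| ≤ t := abs_le.2 ⟨hx.1, hx.2⟩
  linarith

theorem task_BQ : S_BQ := by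
  intro ρ κ K C0 cst w y hy hyρ
  have hρ := cst.ρ0
  have hρ1 := cst.ρ1
  have hκ := cst.κ0
  refine ⟨Real.exp 4 / y ^ 2, ⌈16 / ρ⌉₊, fun N hN => ?_⟩
  have hNr : 16 / ρ ≤ N := (Nat.le_ceil _).trans (by exact_mod_cast hN)
  obtain ⟨hN1, hth1, hth2, _⟩ := th_bounds hρ hρ1 hNr
  have hN0 : (0 : ℝ) < N := by exact_mod_cast hN1
  have hth0 : 0 < th ρ N := by linarith
  refine ⟨fun U V M Mu hM hMu hV hU => ?_, fun V hV => ?_⟩
  · unfold QZ
    have hbd : ∀ x ∈ Set.uIoc (-th ρ N) (th ρ N),
        ‖ez N w (N * (x + y * Complex.I)) * Complex.sin (Real.pi * (x + y * Complex.I)) *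
          (U (x + y * Complex.I) * V (x + y * Complex.I)) * kz N (N * (x + y * Complex.I))‖ ≤
        Real.exp 4 / y ^ 2 * M * Mu *
          Real.exp (N * ((Real.pi * w * y) ^ 2 / (16 * κ) + 2 * K * y ^ 2)) := by
      intro x hx
      rw [Set.uIoc_of_le (by linarith)] at hx
      have hx' : x ∈ Set.Icc (-th ρ N) (th ρ N) := Set.Ioc_subset_Icc_self hx
      have hm := line_mem hρ hth2 hy.le (by linarith) hx'
      have re1 : ((x : ℂ) + y * Complex.I).re = x := by simp
      have im1 : ((x : ℂ) + y * Complex.I).im = y := by simp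
      have b1 := norm_ez hN1 w x y
      have b2 : ‖Complex.sin (Real.pi * (x + y * Complex.I))‖ ≤ Real.exp 4 := by
        refine (norm_sin_le _).trans (Real.exp_le_exp.2 ?_)
        rw [Complex.im_ofReal_mul, im1, abs_of_pos (by positivity)]
        nlinarith [Real.pi_lt_four]
      have b3 := hU _ hm
      have b4 := hV _ hm
      rw [re1, im1] at b4
      rw [im1] at b3
      have b5 := norm_kz_le hN1 (x := x) hy
      rw [norm_mul, norm_mul, norm_mul, norm_mul, b1]
      have q1 : Real.exp (-(Real.pi * w * N * x * y / 2)) *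
          ‖Complex.sin (Real.pi * (x + y * Complex.I))‖ ≤
          Real.exp (-(Real.pi * w * N * x * y / 2)) * Real.exp 4 :=
        mul_le_mul_of_nonneg_left b2 (Real.exp_pos _).le
      have q2 : ‖U (x + y * Complex.I)‖ * ‖V (x + y * Complex.I)‖ ≤
          (Mu * Real.exp (N * (K * y ^ 2))) * (M * Real.exp (N * (-κ * x ^ 2 + K * y ^ 2))) :=
        mul_le_mul b3 b4 (norm_nonneg _) (by positivity)
      have q3 := mul_le_mul (mul_le_mul q1 q2 (by positivity) (by positivity)) b5 (norm_nonneg _)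
        (by positivity)
      refine q3.trans ?_
      have e : Real.exp (-(Real.pi * w * N * x * y / 2)) * Real.exp 4 *
          ((Mu * Real.exp (N * (K * y ^ 2))) * (M * Real.exp (N * (-κ * x ^ 2 + K * y ^ 2)))) *
          (1 / y ^ 2) = Real.exp 4 / y ^ 2 * M * Mu * Real.exp (-(Real.pi * w * N * x * y / 2) +
            N * (K * y ^ 2) + N * (-κ * x ^ 2 + K * y ^ 2)) := by
        rw [Real.exp_add, Real.exp_add]
        ring
      rw [e]
      apply mul_le_mul_of_nonneg_left _ (by positivity)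
      apply Real.exp_le_exp.2
      have f : -(Real.pi * w * x * y / 2) - κ * x ^ 2 ≤ (Real.pi * w * y) ^ 2 / (16 * κ) := by
        rw [le_div_iff₀ (by positivity)]
        nlinarith [sq_nonneg (4 * κ * x + Real.pi * w * y)]
      nlinarith [mul_le_mul_of_nonneg_left f hN0.le]
    have h1 := intervalIntegral.norm_integral_le_of_norm_le_const hbd
    rw [norm_mul, norm_neg, norm_div, norm_mul, Complex.norm_I, mul_one, Complex.norm_natCast,
      Complex.norm_real, Real.norm_eq_abs, abs_of_pos Real.pi_pos]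
    set Q : ℝ := Real.exp 4 / y ^ 2 * M * Mu *
      Real.exp (N * ((Real.pi * w * y) ^ 2 / (16 * κ) + 2 * K * y ^ 2)) with hQ
    have hQ0 : 0 ≤ Q := by positivity
    have h2 : |th ρ N - -th ρ N| ≤ 1 := by
      rw [abs_of_nonneg (by linarith)]
      linarith
    have h3 : (N : ℝ) / Real.pi ≤ N := div_le_self hN0.le (by linarith [Real.pi_gt_three])
    calc _ ≤ (N : ℝ) * (Q * 1) := by
          apply mul_le_mul h3 (h1.trans (mul_le_mul_of_nonneg_left h2 hQ0)) (norm_nonneg _) hN0.le
      _ = _ := by rw [hQ]; ring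
  · unfold QZ
    refine DifferentiableOn.const_mul ?_ _
    refine differentiableOn_integral Metric.isOpen_ball (by linarith) (fun x hx => ?_) ?_
    · have hm := line_mem hρ hth2 hy.le (by linarith) hx
      have h1 : DifferentiableOn ℂ (fun ξ : ℂ => WW N ξ (x + y * Complex.I))
          (Metric.ball (1 / 4) ρ) :=
        DifferentiableOn.comp (g := fun p : ℂ × ℂ => WW N p.1 p.2)
          (f := fun ξ : ℂ => (ξ, (x : ℂ) + y * Complex.I))
          (t := Metric.ball (1 / 4) ρ ×ˢ Metric.ball 0 ρ) (cst.diff N hN1)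
          (differentiableOn_id.prodMk (differentiableOn_const _)) fun ξ hξ => ⟨hξ, hm⟩
      exact (((h1.mul_const _).const_mul _).mul_const _)
    · have hline : ContinuousOn (fun p : ℂ × ℝ => ((p.2 : ℂ) + y * Complex.I))
          (Metric.ball (1 / 4) ρ ×ˢ Set.Icc (-th ρ N) (th ρ N)) := by fun_prop
      have hW : ContinuousOn (fun p : ℂ × ℝ => WW N p.1 (p.2 + y * Complex.I))
          (Metric.ball (1 / 4) ρ ×ˢ Set.Icc (-th ρ N) (th ρ N)) :=
        ContinuousOn.comp (g := fun p : ℂ × ℂ => WW N p.1 p.2)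
          (f := fun p : ℂ × ℝ => (p.1, (p.2 : ℂ) + y * Complex.I))
          (t := Metric.ball (1 / 4) ρ ×ˢ Metric.ball 0 ρ) (cst.diff N hN1).continuousOn
          (continuousOn_fst.prodMk hline)
          fun p hp => ⟨hp.1, line_mem hρ hth2 hy.le (by linarith) hp.2⟩
      have hVc : ContinuousOn (fun p : ℂ × ℝ => V (p.2 + y * Complex.I))
          (Metric.ball (1 / 4) ρ ×ˢ Set.Icc (-th ρ N) (th ρ N)) :=
        ContinuousOn.comp (g := V) (f := fun p : ℂ × ℝ => (p.2 : ℂ) + y * Complex.I)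
          (t := Metric.ball 0 ρ) hV.continuousOn hline
          fun p hp => line_mem hρ hth2 hy.le (by linarith) hp.2
      have hez : ContinuousOn (fun p : ℂ × ℝ => ez N w (N * (p.2 + y * Complex.I)))
          (Metric.ball (1 / 4) ρ ×ˢ Set.Icc (-th ρ N) (th ρ N)) := by
        unfold ez
        fun_prop
      have hsin : ContinuousOn (fun p : ℂ × ℝ => Complex.sin (Real.pi * (p.2 + y * Complex.I)))
          (Metric.ball (1 / 4) ρ ×ˢ Set.Icc (-th ρ N) (th ρ N)) := by fun_prop
      have hkz : ContinuousOn (fun p : ℂ × ℝ => kz N (N * (p.2 + y * Complex.I)))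
          (Metric.ball (1 / 4) ρ ×ˢ Set.Icc (-th ρ N) (th ρ N)) := by
        unfold kz
        refine ContinuousOn.div continuousOn_const (by fun_prop) fun p _ => ?_
        refine pow_ne_zero _ fun h0 => ?_
        have h1 := sinh_le_norm_sin
          (Real.pi * (N * ((p.2 : ℂ) + y * Complex.I) - N + 1) / 2)
        rw [h0, norm_zero] at h1
        have him : (Real.pi * (N * ((p.2 : ℂ) + y * Complex.I) - N + 1) / 2).im =
            Real.pi * (N * y) / 2 := by
          have : (Real.pi * (N * ((p.2 : ℂ) + y * Complex.I) - N + 1) / 2) =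
              ((Real.pi * (N * p.2 - N + 1) / 2 : ℝ) : ℂ) +
              ((Real.pi * (N * y) / 2 : ℝ) : ℂ) * Complex.I := by
            push_cast; ring
          rw [this, Complex.add_im, Complex.ofReal_im, Complex.im_ofReal_mul, Complex.I_im]
          ring
        rw [him] at h1
        have h2 : 0 < Real.pi * (N * y) / 2 := by positivity
        have h3 := Real.sinh_pos_iff.2 h2
        linarith
      exact ((hez.mul hsin).mul (hW.mul hVc)).mul hkz

end Q299.KN.Bq
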