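import Pool.Agent.Q99.KN.Stm2
import Pool.Agent.Q162.FAL.Z

/-!
Project KN of helper99 (job KN-ZG, helper299): too small angle sums give zero, adapted from
`Pool/Agent/Q162/FAL/Z.lean` of helper162
-/

set_option autoImplicit false

namespace Pool.Agent.Q299.KN

open Matrix Finset
open Pool.Agent.W715.VC (rt)
open Pool.Agent.W709.QAT (Piece run)
open Pool.Agent.Q191.TW (cs)
open Pool.Agent.Q191.LB (sg)
open Pool.Agent.Q191.SH (aw)
open Pool.Agent.Q191.TB (Gd Gd_cup Gd_cap Gd_twist Gd_id run_app)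
open Pool.Agent.Q99.FW (Gd_app)
open Pool.Agent.Q99.FAL
open Pool.Agent.Q99.KN
open Pool.Agent.Q162.FAL (step step_le cor_nonneg)

theorem Gd_elg {N : ℕ} (P : Gp N) (hP : P.R.Ok) (n : ℕ) (h : P.p + wd P.ty ≤ n) :
    Gd (N := N) (up P.ty n) n (run N (rt N) (elg P)) := by
  obtain ⟨T, p, Q⟩ := P
  cases T
  · exact hP.gd p n h
  · change p + 2 ≤ n at h
    have e : elg ⟨.H, p, Q⟩ = [Piece.cup (p + 2)] ++ (Q.D (p + 1) ++ [Piece.cap p]) := rfl
    rw [e]
    exact Gd_app (p' := n + 2) (Gd_cup (p + 2) n (by omega)) (Gd_app (hP.gd (p + 1) (n + 2) (by omega))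
      (Gd_cap p n (by omega)))
  · change p + 1 ≤ n at h
    have e : elg ⟨.YL, p, Q⟩ = [Piece.cup (p + 1)] ++ Q.D p := rfl
    rw [e]
    exact Gd_app (p' := n + 2) (Gd_cup (p + 1) n (by omega)) (hP.gd p (n + 2) (by omega))
  · change p + 1 ≤ n at h
    have e : elg ⟨.YR, p, Q⟩ = [Piece.cup p] ++ Q.D (p + 1) := rfl
    rw [e]
    exact Gd_app (p' := n + 2) (Gd_cup p n (by omega)) (hP.gd (p + 1) (n + 2) (by omega))
  · change p + 3 ≤ n at h
    obtain ⟨k, rfl⟩ : ∃ k, n = k + 2 := ⟨n - 2, by omega⟩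
    have e : elg ⟨.LL, p, Q⟩ = Q.D p ++ [Piece.cap (p + 1)] := rfl
    rw [e]
    exact Gd_app (hP.gd p (k + 2) (by omega)) (Gd_cap (p + 1) k (by omega))
  · change p + 3 ≤ n at h
    obtain ⟨k, rfl⟩ : ∃ k, n = k + 2 := ⟨n - 2, by omega⟩
    have e : elg ⟨.LR, p, Q⟩ = Q.D (p + 1) ++ [Piece.cap p] := rfl
    rw [e]
    exact Gd_app (hP.gd (p + 1) (k + 2) (by omega)) (Gd_cap p k (by omega))

theorem Gd_DG {N : ℕ} : ∀ (D : List (Gp N)), (∀ P ∈ D, P.R.Ok) → ∀ (n : ℕ), Vag D n →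
    Gd (N := N) 1 n (run N (rt N) (D.flatMap elg))
  | [], _, n, h => by
    have h1 : n = 1 := h
    subst h1
    exact Gd_id 1
  | P :: D, hD, n, h => by
    rw [List.flatMap_cons]
    exact Gd_app (Gd_elg P (hD P List.mem_cons_self) n h.1)
      (Gd_DG D (fun P hP => hD P (List.mem_cons_of_mem _ hP)) _ h.2)

theorem task_ZG : S_ZG := by
  intro hTR N h D
  induction D with
  | nil =>
    intro _ n hV s G hG hG0 hlt
    have h1 : n = 1 := hV
    subst h1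
    exfalso
    have h2 : 0 ≤ G.sum := List.sum_nonneg hG0
    simp at hlt
    omega
  | cons P D ih =>
    intro hD n hV s G hG hG0 hlt
    have hDD : ∀ P ∈ D, P.R.Ok := fun P hP => hD P (List.mem_cons_of_mem _ hP)
    obtain ⟨hp, hV'⟩ := hV
    obtain ⟨θ, -, hθ⟩ := hTR P.ty N h P.R (hD P List.mem_cons_self) P.p n hp
    obtain ⟨ε, -, hε⟩ := hθ s G hG hG0
    have hGd := Gd_DG (N := N) D hDD _ hV'
    rw [List.flatMap_cons, run_app]
    have e1 := hGd.loc (run N (rt N) (elg P) (UU N (str s G)))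
      (fun l => θ * N ^ ex P.ty * ∑ x : Fin 6 → Fin N, if n1 (zz x) + n2 (zz x) = N - 1 ∧
        (∀ c ∈ cls P.ty P.p (cor (zz x)) G, (N : ℤ) ∣ c + 1) then
          P.R.wt (zz x) * ε x * UU N (str s (stp P.ty P.p (cor (zz x)) G)) l else 0)
      [⟨0, h⟩] rfl (fun l' hl' _ => hε l' hl')
    rw [e1, hGd.smul (θ * N ^ ex P.ty) _ _ rfl, hGd.sum _ _ _ rfl]
    rw [Finset.sum_eq_zero, mul_zero]
    intro x _
    by_cases hx : n1 (zz x) + n2 (zz x) = N - 1 ∧ (∀ c ∈ cls P.ty P.p (cor (zz x)) G, (N : ℤ) ∣ c + 1)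
    · simp only [if_pos hx]
      rw [hGd.smul _ _ _ rfl]
      obtain ⟨s1, s2, s3, s4, s5⟩ := step P.ty P.p n (cor (zz x)) G hp hG hG0 (cor_nonneg x)
      have h3 := step_le P.ty P.p n x G hp hG hG0 hx.1 hx.2
      rw [ih hDD _ hV' s _ s1 s2 (by linarith), mul_zero]
    · simp only [if_neg hx]
      exact hGd.zero _ rfl

end Pool.Agent.Q299.KN
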