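import Pool.Agent.Q99.KN.Stm2
import Pool.Agent.Q224.FAL.TRb

/-!
Project KN of helper99 (job KN-TG1, helper299): the operators of the pieces for arbitrary regions, adapted from
`Pool/Agent/Q224/FAL` of helper224
-/

set_option autoImplicit false

namespace Pool.Agent.Q299.KN

open Matrix Finset
open Pool.Agent.W715.VC (rt)
open Pool.Agent.W709.QAT (Piece run)
open Pool.Agent.Q191.TW (cs cs_norm rt_cs)
open Pool.Agent.Q191.LB (sg)
open Pool.Agent.Q191.SH (aw)
open Pool.Agent.Q191.TB (Gd Gd_cup Gd_cap Gd_twist run_app)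
open Pool.Agent.Q99.FW (TZ Kg K2 Xm Gd_app)
open Pool.Agent.Q99.FAL
open Pool.Agent.Q99.KN
open Pool.Agent.Q224.FAL

variable {N : ℕ}

theorem task_TG_V : TG .V := by
  intro hP _ _ N hN Q hQ p n hpn
  have hN0 : (N : ℤ) ≠ 0 := by exact_mod_cast hN.ne'
  have hpn' : p + 2 ≤ n := hpn
  refine ⟨Q.K, by exact hQ.norm, ?_⟩
  intro s G hG _
  obtain ⟨G₁, x, g, y, r, rfl, hp, hr⟩ := dec3 hG hpn'
  refine ⟨fun X => ep N (-((g + cor (zz X) 0 + 1) / N - 1)) ^ (r.length + 1), ?_, ?_⟩
  · intro X hX
    rw [cls_V hp] at hX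
    have h1 := hX _ (List.mem_singleton_self _)
    have e : g + cor (zz X) 0 + 1 = N := by linarith
    simp only [e]
    rw [Int.ediv_self hN0]
    simp [ep_zero]
  · intro l hl
    have hl' : l.length = n := hl
    rw [str_append, str_cons, str_cons]
    have hlen : (str (s - G₁.sum - x - g) (y :: r)).length = r.length := str_length _ _ _
    show run N (rt N) (Q.D p) _ l = _
    rw [hQ.op p (lab s G₁) _ _ _ (by rw [lab_length, hp]) l (by
      rw [hl', List.length_append, List.length_cons, List.length_cons, hlen, lab_length, hp, hr]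
      omega)]
    show Q.K * N * _ = Q.K * N ^ 1 * _
    rw [pow_one]
    congr 1
    refine Finset.sum_congr rfl fun X _ => ?_
    rw [cls_V hp, stp_V hp]
    by_cases hn : n1 (zz X) + n2 (zz X) = N - 1
    swap
    · rw [if_neg (fun h => hn h.2), if_neg (fun h => hn h.1)]
    have hsum := n12 (zz X)
    rw [hn] at hsum
    beta_reduce
    generalize hq0 : cor (zz X) 0 = q0 at hsum ⊢
    generalize hq1 : cor (zz X) 1 = q1 at hsum ⊢
    generalize hq2 : cor (zz X) 2 = q2 at hsum ⊢
    generalize hq3 : cor (zz X) 3 = q3 at hsum ⊢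
    have hx0 : ((X 0 : ℕ) : ℤ) = q0 := by rw [← hq0]; rfl
    set u := s - G₁.sum with hu
    have hiff : (((X 0 : ℕ) : ℤ) = (u - x - g - (u - x) - 1) % N) ↔ (N : ℤ) ∣ g + q0 + 1 := by
      rw [res_iff, hx0, ← Int.dvd_neg]
      have : -(u - x - g - (u - x) - 1 - q0) = g + q0 + 1 := by ring
      rw [this]
    by_cases hd : (N : ℤ) ∣ g + q0 + 1
    swap
    · rw [if_neg (fun h => hd (hiff.mp h.1)), if_neg]
      intro h
      exact hd (h.2 _ (by simp))
    rw [if_pos ⟨hiff.mpr hd, hn⟩, if_pos ⟨hn, by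
      intro c hc
      rw [List.mem_singleton] at hc
      rw [hc]; exact hd⟩]
    obtain ⟨c, hc⟩ := hd
    rw [hc, Int.mul_ediv_cancel_left _ hN0, mul_assoc]
    congr 1
    rw [str_append, ← hu, str_cons, str_cons, str_head]
    have a1 : u - x - g + q1 = (u - (x + q3) - q2) + N * (-(c - 1)) := by linarith
    have a2 : str (u - x - g) (y :: r) =
        (str (u - (x + q3) - q2 - q1) (y :: r)).map (· + N * (-(c - 1))) := by
      rw [← str_add]; congr 1; linarith
    have a3 : u - x - q3 = u - (x + q3) := by ring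
    rw [a1, a2, a3]
    have a4 : lab s G₁ ++ (u - (x + q3)) :: ((u - (x + q3) - q2) + N * (-(c - 1))) ::
        (str (u - (x + q3) - q2 - q1) (y :: r)).map (· + N * (-(c - 1))) =
        (lab s G₁ ++ [u - (x + q3)]) ++ ((u - (x + q3) - q2) ::
          str (u - (x + q3) - q2 - q1) (y :: r)).map (· + N * (-(c - 1))) := by simp
    rw [a4, per_map hP hN, List.length_cons, str_length]
    congr 2
    simp

/-- `S_REG` in the form of a sum of weights times functions -/
theorem regG (Q : Rgn N) (hQ : Q.Ok) (p : ℕ) (L R : List ℤ) (i j : ℤ)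
    (hL : L.length = p) (l : List (Fin N)) (hl : l.length = (L ++ i :: j :: R).length) :
    run N (rt N) (Q.D p) (UU N (L ++ i :: j :: R)) l =
      (Q.K * N) * ∑ x : Fin 6 → Fin N,
        (if ((x 0 : ℕ) : ℤ) = (j - i - 1) % N ∧ n1 (zz x) + n2 (zz x) = N - 1 then
          Q.wt (zz x) else 0) *
          UU N (L ++ (i - cor (zz x) 3) :: (j + cor (zz x) 1) :: R) l := by
  rw [hQ.op p L R i j hL l hl]
  congr 1
  refine Finset.sum_congr rfl fun x _ => ?_
  split_ifs
  · rfl
  · rw [zero_mul]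

theorem task_TG_LL : TG .LL := by
  intro hP _ hC N hN Q hQ p n hpn
  have hN0 : (N : ℤ) ≠ 0 := by exact_mod_cast hN.ne'
  have hpn' : p + 3 ≤ n := hpn
  obtain ⟨κ, hκ, hcap⟩ := hC N hN (n - p - 3) (p + 1)
  refine ⟨Q.K * κ * (ep N (-1) * ep N (-1) ^ (n - p - 3)), by
    simp only [norm_mul, norm_pow, hQ.norm, ep_norm, hκ]; simp, ?_⟩
  intro s G hG _
  obtain ⟨G₁, x, g, g', y, r, rfl, hp, hr⟩ := dec4 hG hpn'
  refine ⟨fun X => ep N (-((g' + cor (zz X) 1 + 1) / N - 1)) *
    ep N (-((g + cor (zz X) 0 + 1) / N - 1 + ((g' + cor (zz X) 1 + 1) / N - 1))) ^ r.length,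
    ?_, ?_⟩
  · intro X hX
    rw [cls_LL hp] at hX
    have h1 := hX _ (by simp : g + cor (zz X) 0 ∈ [g + cor (zz X) 0, g' + cor (zz X) 1])
    have h2 := hX _ (by simp : g' + cor (zz X) 1 ∈ [g + cor (zz X) 0, g' + cor (zz X) 1])
    have e : g + cor (zz X) 0 + 1 = N := by linarith
    have e' : g' + cor (zz X) 1 + 1 = N := by linarith
    simp only [e, e']
    rw [Int.ediv_self hN0]
    simp [ep_zero]
  · intro l hl
    have hl' : l.length = n - 2 := hl
    rw [str_append, str_cons, str_cons, str_cons]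
    set u := s - G₁.sum with hu
    have hlen : (str (u - x - g - g') (y :: r)).length = r.length := str_length _ _ _
    show run N (rt N) (Q.D p ++ [Piece.cap (p + 1)]) _ l = _
    rw [run_app]
    have hgd : Gd (N := N) (n - 2) n (run N (rt N) [Piece.cap (p + 1)]) := by
      have h := Gd_cap (N := N) (p + 1) (n - 2) (by omega)
      have e : n - 2 + 2 = n := by omega
      rw [e] at h
      exact h
    rw [gd_expand hgd Finset.univ _ _ _ _ (fun l' hl'' => regG Q hQ p (lab s G₁)
      ((u - x - g - g') :: str (u - x - g - g') (y :: r)) (u - x) (u - x - g)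
      (by rw [lab_length, hp]) l' (by
        simp only [List.length_append, List.length_cons, str_length, lab_length, hp, hr, hl'']
        omega)) l hl']
    show _ = Q.K * κ * (ep N (-1) * ep N (-1) ^ (n - p - 3)) * N ^ 2 * _
    rw [Finset.mul_sum, Finset.mul_sum]
    refine Finset.sum_congr rfl fun X _ => ?_
    rw [cls_LL hp, stp_LL hp]
    by_cases hn : n1 (zz X) + n2 (zz X) = N - 1
    swap
    · rw [if_neg (fun h => hn h.2), if_neg (fun h => hn h.1)]; ring
    have hsum := n12 (zz X)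
    rw [hn] at hsum
    beta_reduce
    generalize hq0 : cor (zz X) 0 = q0 at hsum ⊢
    generalize hq1 : cor (zz X) 1 = q1 at hsum ⊢
    generalize hq2 : cor (zz X) 2 = q2 at hsum ⊢
    generalize hq3 : cor (zz X) 3 = q3 at hsum ⊢
    have hx0 : ((X 0 : ℕ) : ℤ) = q0 := by rw [← hq0]; rfl
    have hiff : (((X 0 : ℕ) : ℤ) = (u - x - g - (u - x) - 1) % N) ↔ (N : ℤ) ∣ g + q0 + 1 := by
      rw [res_iff, hx0, ← Int.dvd_neg]
      have : -(u - x - g - (u - x) - 1 - q0) = g + q0 + 1 := by ring
      rw [this]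
    by_cases hd : (N : ℤ) ∣ g + q0 + 1
    swap
    · rw [if_neg (fun h => hd (hiff.mp h.1)), if_neg (fun h => hd (h.2 _ (by simp)))]; ring
    rw [if_pos ⟨hiff.mpr hd, hn⟩]
    have b1 : lab s G₁ ++ (u - x - q3) :: (u - x - g + q1) :: (u - x - g - g') ::
        str (u - x - g - g') (y :: r) = (lab s G₁ ++ [u - x - q3]) ++ (u - x - g + q1) ::
        (u - x - g - g') :: str (u - x - g - g') (y :: r) := by simp
    rw [b1, hcap (lab s G₁ ++ [u - x - q3]) (str (u - x - g - g') (y :: r)) (u - x - g + q1)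
      (u - x - g - g') (by simp [lab_length, hp]) (by rw [hlen, hr]) l (by omega)]
    have hiff2 : ((N : ℤ) ∣ u - x - g - g' - (u - x - g + q1) - 1) ↔ (N : ℤ) ∣ g' + q1 + 1 := by
      rw [← Int.dvd_neg]
      have : -(u - x - g - g' - (u - x - g + q1) - 1) = g' + q1 + 1 := by ring
      rw [this]
    by_cases hd2 : (N : ℤ) ∣ g' + q1 + 1
    swap
    · rw [if_neg (fun h => hd2 (hiff2.mp h)), if_neg (fun h => hd2 (h.2 _ (by simp)))]; ring
    rw [if_pos (hiff2.mpr hd2), if_pos ⟨hn, by
      intro c hc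
      simp only [List.mem_cons, List.not_mem_nil, or_false] at hc
      rcases hc with rfl | rfl
      · exact hd
      · exact hd2⟩]
    obtain ⟨c, hc⟩ := hd
    obtain ⟨c', hc'⟩ := hd2
    have e1 : u - x - g - g' - (u - x - g + q1) - 1 = N * (-c') := by linarith
    rw [hc, hc', e1, Int.mul_ediv_cancel_left _ hN0, Int.mul_ediv_cancel_left _ hN0,
      Int.mul_ediv_cancel_left _ hN0]
    rw [str_append, ← hu, str_cons, str_head]
    have a2 : (str (u - x - g - g') (y :: r)).map (· - 1) =
        (str (u - (x + q3) - q2) (y :: r)).map (· + N * (-(c + c' - 1))) := by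
      have a0 : (fun t : ℤ => t - 1) = (fun t => t + (-1)) := by funext t; ring
      rw [a0, ← str_add, ← str_add]; congr 1; linarith
    have a3 : u - x - q3 = u - (x + q3) := by ring
    rw [a2, a3, per_map hP hN, str_length]
    have a4 : (lab s G₁ ++ [u - (x + q3)]) ++ str (u - (x + q3) - q2) (y :: r) =
        lab s G₁ ++ (u - (x + q3)) :: str (u - (x + q3) - q2) (y :: r) := by simp
    have s1 : ep N (-c') = ep N (-1) * ep N (-(c' - 1)) := by rw [← ep_add]; congr 1; ring
    have s2 : ep N (-(c + c' - 1)) = ep N (-1) * ep N (-(c - 1 + (c' - 1))) := by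
      rw [← ep_add]; congr 1; ring
    rw [a4, s1, s2, mul_pow, hr]
    ring

theorem task_TG_LR : TG .LR := by
  intro hP _ hC N hN Q hQ p n hpn
  have hN0 : (N : ℤ) ≠ 0 := by exact_mod_cast hN.ne'
  have hpn' : p + 3 ≤ n := hpn
  obtain ⟨κ, hκ, hcap⟩ := hC N hN (n - p - 2) p
  refine ⟨Q.K * κ * (ep N (-1) * ep N (-1) ^ (n - p - 3 + 1)), by
    simp only [norm_mul, norm_pow, hQ.norm, ep_norm, hκ]; simp, ?_⟩
  intro s G hG _
  obtain ⟨G₁, x, g, g', y, r, rfl, hp, hr⟩ := dec4 hG hpn'
  refine ⟨fun X => ep N (-((g + cor (zz X) 3 + 1) / N - 1)) *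
    ep N (-((g + cor (zz X) 3 + 1) / N - 1 + ((g' + cor (zz X) 0 + 1) / N - 1))) ^
      (r.length + 1), ?_, ?_⟩
  · intro X hX
    rw [cls_LR hp] at hX
    have h1 := hX _ (by simp : g + cor (zz X) 3 ∈ [g + cor (zz X) 3, g' + cor (zz X) 0])
    have h2 := hX _ (by simp : g' + cor (zz X) 0 ∈ [g + cor (zz X) 3, g' + cor (zz X) 0])
    have e : g + cor (zz X) 3 + 1 = N := by linarith
    have e' : g' + cor (zz X) 0 + 1 = N := by linarith
    simp only [e, e']
    rw [Int.ediv_self hN0]
    simp [ep_zero]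
  · intro l hl
    have hl' : l.length = n - 2 := hl
    rw [str_append, str_cons, str_cons, str_cons]
    set u := s - G₁.sum with hu
    have hlen : (str (u - x - g - g') (y :: r)).length = r.length := str_length _ _ _
    show run N (rt N) (Q.D (p + 1) ++ [Piece.cap p]) _ l = _
    rw [run_app]
    have hgd : Gd (N := N) (n - 2) n (run N (rt N) [Piece.cap p]) := by
      have h := Gd_cap (N := N) p (n - 2) (by omega)
      have e : n - 2 + 2 = n := by omega
      rw [e] at h
      exact h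
    have b0 : lab s G₁ ++ (u - x) :: (u - x - g) :: (u - x - g - g') ::
        str (u - x - g - g') (y :: r) = (lab s G₁ ++ [u - x]) ++ (u - x - g) ::
        (u - x - g - g') :: str (u - x - g - g') (y :: r) := by simp
    rw [b0]
    rw [gd_expand hgd Finset.univ _ _ _ _ (fun l' hl'' => regG Q hQ (p + 1)
      (lab s G₁ ++ [u - x]) (str (u - x - g - g') (y :: r)) (u - x - g) (u - x - g - g')
      (by simp [lab_length, hp]) l' (by
        simp only [List.length_append, List.length_cons, List.length_nil, str_length,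
          lab_length, hp, hr, hl'']
        omega)) l hl']
    show _ = Q.K * κ * (ep N (-1) * ep N (-1) ^ (n - p - 3 + 1)) * N ^ 2 * _
    rw [Finset.mul_sum, Finset.mul_sum]
    refine Finset.sum_congr rfl fun X _ => ?_
    rw [cls_LR hp, stp_LR hp]
    by_cases hn : n1 (zz X) + n2 (zz X) = N - 1
    swap
    · rw [if_neg (fun h => hn h.2), if_neg (fun h => hn h.1)]; ring
    have hsum := n12 (zz X)
    rw [hn] at hsum
    beta_reduce
    generalize hq0 : cor (zz X) 0 = q0 at hsum ⊢
    generalize hq1 : cor (zz X) 1 = q1 at hsum ⊢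
    generalize hq2 : cor (zz X) 2 = q2 at hsum ⊢
    generalize hq3 : cor (zz X) 3 = q3 at hsum ⊢
    have hx0 : ((X 0 : ℕ) : ℤ) = q0 := by rw [← hq0]; rfl
    have hiff : (((X 0 : ℕ) : ℤ) = (u - x - g - g' - (u - x - g) - 1) % N) ↔
        (N : ℤ) ∣ g' + q0 + 1 := by
      rw [res_iff, hx0, ← Int.dvd_neg]
      have : -(u - x - g - g' - (u - x - g) - 1 - q0) = g' + q0 + 1 := by ring
      rw [this]
    by_cases hd : (N : ℤ) ∣ g' + q0 + 1
    swap
    · rw [if_neg (fun h => hd (hiff.mp h.1)), if_neg (fun h => hd (h.2 _ (by simp)))]; ring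
    rw [if_pos ⟨hiff.mpr hd, hn⟩]
    have b1 : (lab s G₁ ++ [u - x]) ++ (u - x - g - q3) :: (u - x - g - g' + q1) ::
        str (u - x - g - g') (y :: r) = lab s G₁ ++ (u - x) :: (u - x - g - q3) ::
        ((u - x - g - g' + q1) :: str (u - x - g - g') (y :: r)) := by simp
    rw [b1, hcap (lab s G₁) ((u - x - g - g' + q1) :: str (u - x - g - g') (y :: r)) (u - x)
      (u - x - g - q3) (by simp [lab_length, hp]) (by
        rw [List.length_cons, hlen, hr]; omega) l (by omega)]
    have hiff2 : ((N : ℤ) ∣ u - x - g - q3 - (u - x) - 1) ↔ (N : ℤ) ∣ g + q3 + 1 := by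
      rw [← Int.dvd_neg]
      have : -(u - x - g - q3 - (u - x) - 1) = g + q3 + 1 := by ring
      rw [this]
    by_cases hd2 : (N : ℤ) ∣ g + q3 + 1
    swap
    · rw [if_neg (fun h => hd2 (hiff2.mp h)), if_neg (fun h => hd2 (h.2 _ (by simp)))]; ring
    rw [if_pos (hiff2.mpr hd2), if_pos ⟨hn, by
      intro c hc
      simp only [List.mem_cons, List.not_mem_nil, or_false] at hc
      rcases hc with rfl | rfl
      · exact hd2
      · exact hd⟩]
    obtain ⟨c', hc'⟩ := hd
    obtain ⟨c, hc⟩ := hd2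
    have e1 : u - x - g - q3 - (u - x) - 1 = N * (-c) := by linarith
    rw [hc, hc', e1, Int.mul_ediv_cancel_left _ hN0, Int.mul_ediv_cancel_left _ hN0,
      Int.mul_ediv_cancel_left _ hN0]
    rw [str_append, ← hu, str_cons, str_head]
    have a0 : (fun t : ℤ => t - 1) = (fun t => t + (-1)) := by funext t; ring
    have a2 : ((u - x - g - g' + q1) :: str (u - x - g - g') (y :: r)).map (· - 1) =
        ((u - (x + q2)) :: str (u - (x + q2) - q1) (y :: r)).map (· + N * (-(c + c' - 1))) := by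
      rw [List.map_cons, List.map_cons, a0, ← str_add, ← str_add]
      congr 1
      · linarith
      · congr 1; linarith
    rw [a2, per_map hP hN, List.length_cons, str_length]
    have s1 : ep N (-c) = ep N (-1) * ep N (-(c - 1)) := by rw [← ep_add]; congr 1; ring
    have s2 : ep N (-(c + c' - 1)) = ep N (-1) * ep N (-(c - 1 + (c' - 1))) := by
      rw [← ep_add]; congr 1; ring
    rw [s1, s2, mul_pow, hr]
    ring

end Pool.Agent.Q299.KN
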