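import Pool.Agent.Q99.KN.Stm4

/-!
# Complex Gaussian integrals in several variables do not vanish
-/

set_option autoImplicit false

namespace Q299.KN.Gim

open Finset MeasureTheory

/-- The quadratic form. -/
noncomputable def qf {ι : Type} [Fintype ι] (A : ι → ι → ℂ) (u : ι → ℝ) : ℂ :=
  ∑ i, ∑ j, A i j * u i * u j

theorem integrable_gauss {ι : Type} [Fintype ι] {κ : ℝ} (hκ : 0 < κ) :
    Integrable fun u : ι → ℝ => Real.exp (-κ * ∑ i, u i ^ 2) := by
  have h1 : (fun u : ι → ℝ => Real.exp (-κ * ∑ i, u i ^ 2)) =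
      fun u => ∏ i, Real.exp (-κ * u i ^ 2) := by
    funext u
    rw [← Real.exp_sum, Finset.mul_sum]
  rw [h1]
  exact Integrable.fintype_prod (f := fun _ (x : ℝ) => Real.exp (-κ * x ^ 2))
    fun _ => integrable_exp_neg_mul_sq hκ

theorem continuous_qf {ι : Type} [Fintype ι] (A : ι → ι → ℂ) : Continuous (qf A) := by
  unfold qf
  fun_prop

theorem integrable_qf {ι : Type} [Fintype ι] {κ : ℝ} (hκ : 0 < κ) (A : ι → ι → ℂ)
    (hA : ∀ u : ι → ℝ, (qf A u).re ≤ -κ * ∑ i, u i ^ 2) :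
    Integrable fun u : ι → ℝ => Complex.exp (qf A u) := by
  refine (integrable_gauss hκ).mono' ?_ (Filter.Eventually.of_forall fun u => ?_)
  · exact (Complex.continuous_exp.comp (continuous_qf A)).aestronglyMeasurable
  · rw [Complex.norm_exp]
    exact Real.exp_le_exp.2 (hA u)

theorem re_bound (a β : ℂ) (ha : a.re < 0) :
    (-(β ^ 2 / (4 * a))).re ≤ β.re ^ 2 / (4 * (-a.re)) := by
  have hd : 0 < a.re ^ 2 + a.im ^ 2 := by nlinarith [sq_nonneg a.im]
  have hp : 0 < -a.re := by linarith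
  have e1 : (β ^ 2).re = β.re ^ 2 - β.im ^ 2 := by simp [sq]
  have e2 : (β ^ 2).im = 2 * (β.re * β.im) := by simp [sq]; ring
  have e3 : (4 * a).re = 4 * a.re := by simp
  have e4 : (4 * a).im = 4 * a.im := by simp
  have e5 : Complex.normSq (4 * a) = 16 * (a.re ^ 2 + a.im ^ 2) := by
    rw [Complex.normSq_apply, e3, e4]; ring
  rw [Complex.neg_re, Complex.div_re, e1, e2, e3, e4, e5, ← add_div, ← neg_div,
    div_le_div_iff₀ (by positivity) (by positivity)]
  nlinarith [sq_nonneg (β.re * a.im - a.re * β.im)]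

/-- The linear coefficients. -/
noncomputable def lc {n : ℕ} (A : Fin (n + 1) → Fin (n + 1) → ℂ) (j : Fin n) : ℂ :=
  A 0 j.succ + A j.succ 0

/-- The Schur complement. -/
noncomputable def sch {n : ℕ} (A : Fin (n + 1) → Fin (n + 1) → ℂ) (i j : Fin n) : ℂ :=
  A i.succ j.succ - lc A i * lc A j / (4 * A 0 0)

theorem qf_cons {n : ℕ} (A : Fin (n + 1) → Fin (n + 1) → ℂ) (x : ℝ) (v : Fin n → ℝ) :
    qf A (Fin.cons x v) = A 0 0 * x ^ 2 + (∑ j, lc A j * v j) * x +
      ∑ i, ∑ j, A (Fin.succ i) (Fin.succ j) * v i * v j := by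
  unfold qf lc
  rw [Fin.sum_univ_succ]
  simp only [Fin.sum_univ_succ (n := n), Fin.cons_zero, Fin.cons_succ]
  rw [Finset.sum_add_distrib]
  simp only [add_mul, Finset.sum_add_distrib, Finset.sum_mul]
  have h1 : ∑ i : Fin n, A 0 i.succ * (x : ℂ) * v i = ∑ i : Fin n, A 0 i.succ * (v i : ℂ) * x :=
    Finset.sum_congr rfl fun i _ => by ring
  rw [h1]
  ring

theorem qf_sch {n : ℕ} (A : Fin (n + 1) → Fin (n + 1) → ℂ) (v : Fin n → ℝ) :
    qf (sch A) v = ∑ i, ∑ j, A (Fin.succ i) (Fin.succ j) * v i * v j -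
      (∑ j, lc A j * v j) ^ 2 / (4 * A 0 0) := by
  unfold qf sch
  rw [sq, Finset.sum_mul_sum, Finset.sum_div, ← Finset.sum_sub_distrib]
  refine Finset.sum_congr rfl fun i _ => ?_
  rw [Finset.sum_div, ← Finset.sum_sub_distrib]
  refine Finset.sum_congr rfl fun j _ => ?_
  ring

theorem gauss_fin {κ : ℝ} (hκ : 0 < κ) : ∀ (n : ℕ) (A : Fin n → Fin n → ℂ),
    (∀ u : Fin n → ℝ, (qf A u).re ≤ -κ * ∑ i, u i ^ 2) →
    ∫ u : Fin n → ℝ, Complex.exp (qf A u) ≠ 0 := by
  intro n
  induction n with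
  | zero =>
    intro A _
    rw [Measure.volume_pi_eq_dirac (default : Fin 0 → ℝ), integral_dirac]
    exact Complex.exp_ne_zero _
  | succ n ih =>
    intro A hA
    set a : ℂ := A 0 0 with ha
    have hare : a.re ≤ -κ := by
      have h1 := hA (Fin.cons 1 0)
      rw [qf_cons, Fin.sum_univ_succ] at h1
      simpa using h1
    have ha0 : a.re < 0 := by linarith
    have hane : a ≠ 0 := by
      intro h
      rw [h] at ha0
      simp at ha0
    -- the bound for the Schur complement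
    have hS : ∀ v : Fin n → ℝ, (qf (sch A) v).re ≤ -κ * ∑ i, v i ^ 2 := by
      intro v
      rw [qf_sch]
      set β : ℂ := ∑ j, lc A j * v j with hβ
      set Dv : ℂ := ∑ i, ∑ j, A (Fin.succ i) (Fin.succ j) * v i * v j with hDv
      have h1 := re_bound a β ha0
      set x : ℝ := β.re / (2 * (-a.re)) with hx
      have h2 := hA (Fin.cons x v)
      rw [qf_cons, Fin.sum_univ_succ] at h2
      simp only [Fin.cons_zero, Fin.cons_succ] at h2
      rw [← hβ, ← hDv, Complex.add_re, Complex.add_re, Complex.re_mul_ofReal] at h2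
      have h3 : (A 0 0 * (x : ℂ) ^ 2).re = a.re * x ^ 2 := by
        rw [← Complex.ofReal_pow, Complex.re_mul_ofReal]
      rw [h3] at h2
      have hp : 0 < -a.re := by linarith
      have h4 : a.re * x ^ 2 + β.re * x = β.re ^ 2 / (4 * (-a.re)) := by
        rw [hx]
        field_simp
        ring
      rw [Complex.sub_re]
      rw [Complex.neg_re] at h1
      have h5 : 0 ≤ κ * x ^ 2 := by positivity
      linarith
    have hI := ih (sch A) hS
    -- Fubini
    have hmp := (volume_preserving_piFinSuccAbove (fun _ : Fin (n + 1) => ℝ) 0).symm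
    have hcons : ∀ p : ℝ × (Fin n → ℝ), (MeasurableEquiv.piFinSuccAbove
        (fun _ : Fin (n + 1) => ℝ) 0).symm p = Fin.cons p.1 p.2 := by
      intro p
      rw [MeasurableEquiv.piFinSuccAbove_symm_apply]
      simp only [Fin.insertNthEquiv, Equiv.coe_fn_mk, Fin.insertNth_zero]
      rfl
    have h1 : ∫ u : Fin (n + 1) → ℝ, Complex.exp (qf A u) =
        ∫ p : ℝ × (Fin n → ℝ), Complex.exp (qf A (Fin.cons p.1 p.2)) := by
      rw [← hmp.integral_comp']
      simp only [hcons]
    have hint : Integrable fun p : ℝ × (Fin n → ℝ) =>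
        Complex.exp (qf A (Fin.cons p.1 p.2)) := by
      have h2 := (hmp.integrable_comp_emb (MeasurableEquiv.measurableEmbedding _)).2
        (integrable_qf hκ A hA)
      refine h2.congr (Filter.Eventually.of_forall fun p => ?_)
      simp only [Function.comp, hcons]
    rw [h1, Measure.volume_eq_prod, integral_prod_symm _ hint]
    have h2 : ∀ v : Fin n → ℝ, ∫ x : ℝ, Complex.exp (qf A (Fin.cons x v)) =
        (Real.pi / -a) ^ (1 / 2 : ℂ) * Complex.exp (qf (sch A) v) := by
      intro v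
      simp only [qf_cons]
      rw [integral_cexp_quadratic ha0, qf_sch]
    simp only [h2]
    rw [integral_const_mul]
    refine mul_ne_zero ?_ hI
    rw [Ne, Complex.cpow_eq_zero_iff, not_and_or]
    left
    exact div_ne_zero (by exact_mod_cast Real.pi_ne_zero) (neg_ne_zero.2 hane)

/-- **Complex Gaussian integrals do not vanish.** -/
theorem gauss_ne_zero (ι : Type) [Fintype ι] (A : ι → ι → ℂ) (κ : ℝ) (hκ : 0 < κ)
    (hA : ∀ u : ι → ℝ, (∑ i, ∑ j, A i j * u i * u j).re ≤ -κ * ∑ i, u i ^ 2) :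
    ∫ u : ι → ℝ, Complex.exp (∑ i, ∑ j, A i j * u i * u j) ≠ 0 := by
  classical
  obtain ⟨n, ⟨e⟩⟩ : ∃ n, Nonempty (ι ≃ Fin n) := ⟨_, ⟨Fintype.equivFin ι⟩⟩
  set A' : Fin n → Fin n → ℂ := fun i j => A (e.symm i) (e.symm j) with hA'
  have hmp := volume_measurePreserving_piCongrLeft (fun _ : ι => ℝ) e.symm
  have hval : ∀ (u : Fin n → ℝ) (i : Fin n),
      MeasurableEquiv.piCongrLeft (fun _ : ι => ℝ) e.symm u (e.symm i) = u i := by
    intro u i
    rw [MeasurableEquiv.coe_piCongrLeft, Equiv.piCongrLeft_apply_apply]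
  have hqf : ∀ u : Fin n → ℝ, ∑ i, ∑ j, A i j *
      (MeasurableEquiv.piCongrLeft (fun _ : ι => ℝ) e.symm u i : ℂ) *
      (MeasurableEquiv.piCongrLeft (fun _ : ι => ℝ) e.symm u j : ℂ) = qf A' u := by
    intro u
    unfold qf
    rw [← e.symm.sum_comp]
    refine Finset.sum_congr rfl fun i _ => ?_
    rw [← e.symm.sum_comp]
    refine Finset.sum_congr rfl fun j _ => ?_
    rw [hval, hval]
  rw [← hmp.integral_comp']
  simp only [hqf]
  refine gauss_fin hκ n A' fun u => ?_
  rw [← hqf u]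
  refine (hA _).trans (le_of_eq ?_)
  congr 1
  rw [← e.symm.sum_comp]
  exact Finset.sum_congr rfl fun i _ => by rw [hval]

/-- Job GIM of project KN. -/
theorem task_GIM : Pool.Agent.Q99.KN.S_GIM := fun ι _ A κ hκ hA => gauss_ne_zero ι A κ hκ hA

end Q299.KN.Gim
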